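import Mathlib

/-!
# APN maps that are not EA-equivalent to a map giving rise to a relative difference set

Let `n ≥ 5` be such that `2 ^ n - 1` is prime (for example `n = 5, 7, 13, 17, 19`). We show that
the Gold map `x ↦ x ^ 3` on the field with `2 ^ n` elements, which is APN, is not EA-equivalent to
any map whose image is a nontrivial relative difference set of the additive group.
-/

set_option autoImplicit false

open Finset

namespace Pool.Agent.Results.MP_abc6c1_co.GoldEA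

section definitions

variable {F : Type} [Field F]

/-- `f` is APN: for every `a ≠ 0` and every `b` the equation `f (x + a) + f x = b` has at most
two solutions. -/
def IsAPN (f : F → F) : Prop :=
  ∀ a : F, a ≠ 0 → ∀ b : F, {x : F | f (x + a) + f x = b}.ncard ≤ 2

/-- The subset `R` of the additive group `G` is a relative difference set relative to the
subgroup `N`: every element outside `N` is a difference `r - r'` of distinct elements of `R` in
exactly `lam` ways, and no nonzero element of `N` is such a difference. -/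
def IsRDS {G : Type} [AddCommGroup G] (R : Set G) (N : AddSubgroup G) (lam : ℕ) : Prop :=
  (∀ g : G, g ∉ N →
    {p : G × G | p.1 ∈ R ∧ p.2 ∈ R ∧ p.1 ≠ p.2 ∧ p.1 - p.2 = g}.ncard = lam) ∧
  (∀ r ∈ R, ∀ r' ∈ R, r ≠ r' → r - r' ∉ N)

/-- The map `f` gives rise to a relative difference set: its image is a relative difference set
of the additive group `(F, +)` relative to some subgroup, and the number `k` of the elements of
the image satisfies `2 ≤ k ≤ |F| - 2`. -/
def GivesRDS (f : F → F) : Prop :=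
  ∃ (N : AddSubgroup F) (lam : ℕ), IsRDS (Set.range f) N lam ∧
    2 ≤ (Set.range f).ncard ∧ (Set.range f).ncard + 2 ≤ Nat.card F

/-- EA-equivalence: `g = A' ∘ f ∘ B' + C'` with the affine permutations `A' = A + a` and
`B' = B + b` (with `A`, `B` additive bijections) and the affine map `C' = C + c`. -/
def EAEquiv (f g : F → F) : Prop :=
  ∃ (A B : F ≃+ F) (a b : F) (C : F →+ F) (c : F),
    ∀ x, g x = (A (f (B x + b)) + a) + (C x + c)

end definitions

section auxiliary

variable {F : Type} [Field F] [Fintype F]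

/-- Additive maps are linearized polynomials. -/
theorem linearized (n : ℕ) (hn : Fintype.card F = 2 ^ n) [CharP F 2] (L : F →+ F) :
    ∃ c : Fin n → F, ∀ a, L a = ∑ k, c k * a ^ (2 ^ (k : ℕ)) := by
  let : Algebra (ZMod 2) F := ZMod.algebra F 2
  have : Fact (Nat.Prime 2) := ⟨Nat.prime_two⟩
  have hfin : Module.finrank (ZMod 2) F = n := by
    have h := Module.card_eq_pow_finrank (K := ZMod 2) (V := F)
    rw [hn, ZMod.card] at h
    exact (Nat.pow_right_injective le_rfl h).symm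
  subst hfin
  let φ : Fin (Module.finrank (ZMod 2) F) → (F →ₗ[ZMod 2] F) := fun k =>
    (FiniteField.frobeniusAlgHom (ZMod 2) F ^ (k : ℕ)).toLinearMap
  have hli : LinearIndependent F φ :=
    (linearIndependent_algHom_toLinearMap (ZMod 2) F F).comp _
      (FiniteField.bijective_frobeniusAlgHom_pow (ZMod 2) F).1
  have hspan : Submodule.span F (Set.range φ) = ⊤ := by
    apply hli.span_eq_top_of_card_eq_finrank'
    rw [Module.finrank_linearMap_self]
    simp
  let L' : F →ₗ[ZMod 2] F := L.toZModLinearMap 2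
  have hmem : L' ∈ Submodule.span F (Set.range φ) := by
    rw [hspan]; exact Submodule.mem_top
  obtain ⟨c, hc⟩ := (Submodule.mem_span_range_iff_exists_fun F).1 hmem
  refine ⟨c, fun a => ?_⟩
  have h1 : L' a = L a := rfl
  rw [← h1, ← hc, LinearMap.sum_apply]
  refine Finset.sum_congr rfl fun k _ => ?_
  simp only [φ, LinearMap.smul_apply, AlgHom.toLinearMap_apply, smul_eq_mul]
  congr 1
  rw [AlgHom.coe_pow, FiniteField.coe_frobeniusAlgHom, pow_iterate, ZMod.card]

theorem psum (e : ℕ) (he : e ≠ 0) :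
    ∑ x : F, x ^ e = if Fintype.card F - 1 ∣ e then -1 else 0 := by
  classical
  let φ : Fˣ ↪ F := ⟨fun x ↦ x, Units.val_injective⟩
  have : univ.map φ = univ \ {0} := by
    ext x
    simpa only [mem_map, mem_univ, Function.Embedding.coeFn_mk, true_and, mem_sdiff,
      mem_singleton, φ] using! isUnit_iff_ne_zero
  calc
    ∑ x : F, x ^ e = ∑ x ∈ univ \ {(0 : F)}, x ^ e := by
      rw [← sum_sdiff ({0} : Finset F).subset_univ, sum_singleton, zero_pow he, add_zero]
    _ = ∑ x : Fˣ, (x ^ e : F) := by simp [φ, ← this, univ.sum_map φ]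
    _ = _ := by rw [FiniteField.sum_pow_units F e]

/-- The absolute trace as a polynomial function. -/
def T (n : ℕ) (c : F) : F := ∑ i ∈ range n, c ^ (2 ^ i)

theorem T_add [CharP F 2] (n : ℕ) (a b : F) : T n (a + b) = T n a + T n b := by
  have : Fact (Nat.Prime 2) := ⟨Nat.prime_two⟩
  unfold T
  rw [← Finset.sum_add_distrib]
  exact Finset.sum_congr rfl fun i _ => add_pow_char_pow a b 2 i

theorem T_sq [CharP F 2] (n : ℕ) (hn : Fintype.card F = 2 ^ n) (c : F) :
    T n c ^ 2 = T n c := by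
  have : Fact (Nat.Prime 2) := ⟨Nat.prime_two⟩
  have : ExpChar F 2 := ExpChar.prime Nat.prime_two
  unfold T
  have h1 : (∑ i ∈ range n, c ^ (2 ^ i)) ^ 2 = ∑ i ∈ range n, c ^ (2 ^ (i + 1)) := by
    rw [sum_pow_char 2]
    exact Finset.sum_congr rfl fun i _ => by rw [← pow_mul, pow_succ]
  have h2 := Finset.sum_range_succ (fun i => c ^ (2 ^ i)) n
  have h3 := Finset.sum_range_succ' (fun i => c ^ (2 ^ i)) n
  have h4 : c ^ (2 ^ n) = c := by rw [← hn]; exact FiniteField.pow_card c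
  simp only [h4] at h2
  simp only [pow_zero, pow_one] at h3
  rw [h1]
  rw [h2] at h3
  exact (add_right_cancel h3).symm

theorem T_cases [CharP F 2] (n : ℕ) (hn : Fintype.card F = 2 ^ n) (c : F) :
    T n c = 0 ∨ T n c = 1 := by
  have h := T_sq n hn c
  have h2 : T n c * (T n c - 1) = 0 := by linear_combination h
  rcases mul_eq_zero.1 h2 with h | h
  · exact Or.inl h
  · exact Or.inr (sub_eq_zero.1 h)

theorem half_trace [CharP F 2] (h : ℕ) (hn : Fintype.card F = 2 ^ (2 * h + 1)) (c : F) :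
    ∃ z : F, z ^ 2 + z = T (2 * h + 1) c + c := by
  have : Fact (Nat.Prime 2) := ⟨Nat.prime_two⟩
  have : ExpChar F 2 := ExpChar.prime Nat.prime_two
  refine ⟨∑ j ∈ range (h + 1), c ^ (2 ^ (2 * j)), ?_⟩
  have h1 : (∑ j ∈ range (h + 1), c ^ (2 ^ (2 * j))) ^ 2
      = ∑ j ∈ range (h + 1), c ^ (2 ^ (2 * j + 1)) := by
    rw [sum_pow_char 2]
    exact Finset.sum_congr rfl fun i _ => by rw [← pow_mul, pow_succ]
  have key : ∀ m : ℕ, ∑ j ∈ range m, c ^ (2 ^ (2 * j + 1)) + ∑ j ∈ range m, c ^ (2 ^ (2 * j))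
      = ∑ i ∈ range (2 * m), c ^ (2 ^ i) := by
    intro m
    induction m with
    | zero => simp
    | succ m ih =>
      rw [Finset.sum_range_succ, Finset.sum_range_succ, show 2 * (m + 1) = 2 * m + 1 + 1 by ring,
        Finset.sum_range_succ, Finset.sum_range_succ, ← ih]
      ring
  rw [h1, key (h + 1), show 2 * (h + 1) = 2 * h + 1 + 1 by ring, Finset.sum_range_succ]
  have h4 : c ^ (2 ^ (2 * h + 1)) = c := by rw [← hn]; exact FiniteField.pow_card c
  rw [h4]
  rfl

theorem T_one [CharP F 2] (h : ℕ) : T (F := F) (2 * h + 1) 1 = 1 := by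
  unfold T
  have h2 : (2 : F) = 0 := by exact_mod_cast CharP.cast_eq_zero F 2
  simp [h2]

/-- First divisibility fact. -/
theorem nd1 (n i : ℕ) (h5 : 5 ≤ n) (hp : (2 ^ n - 1).Prime) (hi0 : 1 ≤ i) (hi : i < n) :
    ¬ (2 ^ n - 1 ∣ 3 + (2 ^ n - 4) * 2 ^ i) := by
  intro hd
  have h32 : 2 ^ 5 ≤ 2 ^ n := Nat.pow_le_pow_right (by norm_num) h5
  have hin : 2 ^ i < 2 ^ n := Nat.pow_lt_pow_right (by norm_num) hi
  have hi2 : 2 ^ 1 ≤ 2 ^ i := Nat.pow_le_pow_right (by norm_num) hi0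
  -- (q - 3) 2^i + 3 = q 2^i - 3 (2^i - 1)
  have h1 : 3 + (2 ^ n - 4) * 2 ^ i + 3 * (2 ^ i - 1) = (2 ^ n - 1) * 2 ^ i := by
    obtain ⟨q, hq⟩ : ∃ q, 2 ^ n = q + 4 := ⟨2 ^ n - 4, by omega⟩
    obtain ⟨t, ht⟩ : ∃ t, 2 ^ i = t + 1 := ⟨2 ^ i - 1, by omega⟩
    rw [hq, ht]
    simp only [Nat.add_sub_cancel, show q + 4 - 1 = q + 3 by omega]
    ring
  have h2 : 2 ^ n - 1 ∣ 3 * (2 ^ i - 1) := by
    have h3 : 2 ^ n - 1 ∣ (2 ^ n - 1) * 2 ^ i := dvd_mul_right _ _
    rw [← h1] at h3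
    exact (Nat.dvd_add_right hd).1 h3
  rcases (Nat.Prime.dvd_mul hp).1 h2 with h | h
  · have := Nat.le_of_dvd (by norm_num) h
    omega
  · have := Nat.le_of_dvd (by omega) h
    omega

/-- Second divisibility fact. -/
theorem nd2 (n i k : ℕ) (h5 : 5 ≤ n) (hi : i < n) (hk : k < n) :
    ¬ (2 ^ n - 1 ∣ 3 + 2 ^ k * 2 ^ i + (2 ^ n - 4) * 2 ^ i) := by
  intro hd
  have h32 : 2 ^ 5 ≤ 2 ^ n := Nat.pow_le_pow_right (by norm_num) h5
  -- pass to integers
  have hd' : ((2 : ℤ) ^ n - 1) ∣ 3 + 2 ^ k * 2 ^ i + ((2 : ℤ) ^ n - 4) * 2 ^ i := by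
    have := Int.natCast_dvd_natCast.2 hd
    push_cast [Nat.cast_sub (show 1 ≤ 2 ^ n by omega), Nat.cast_sub (show 4 ≤ 2 ^ n by omega)]
      at this
    exact this
  obtain ⟨s, hs, hsd⟩ : ∃ s, s < n ∧ ((2 : ℤ) ^ n - 1) ∣ 2 ^ s - 2 ^ k * 2 ^ i := by
    by_cases hki : k + i < n
    · exact ⟨k + i, hki, by rw [pow_add]; simp⟩
    · refine ⟨k + i - n, by omega, ⟨-2 ^ (k + i - n), ?_⟩⟩
      have : (2 : ℤ) ^ k * 2 ^ i = 2 ^ n * 2 ^ (k + i - n) := by
        rw [← pow_add, ← pow_add]; congr 1; omega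
      rw [this]; ring
  have hE : ((2 : ℤ) ^ n - 1) ∣ 3 + 2 ^ s - 3 * 2 ^ i := by
    have h1 : (3 : ℤ) + 2 ^ s - 3 * 2 ^ i
        = (3 + 2 ^ k * 2 ^ i + ((2 : ℤ) ^ n - 4) * 2 ^ i) + (2 ^ s - 2 ^ k * 2 ^ i)
          - ((2 : ℤ) ^ n - 1) * 2 ^ i := by ring
    rw [h1]
    exact dvd_sub (dvd_add hd' hsd) (dvd_mul_right _ _)
  obtain ⟨t, ht⟩ := hE
  obtain ⟨m, rfl⟩ : ∃ m, n = m + 2 := ⟨n - 2, by omega⟩
  have e1 : (2 : ℤ) ^ (m + 2) = 4 * 2 ^ m := by ring
  have h8 : (8 : ℤ) ≤ 2 ^ m := by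
    calc (8 : ℤ) = 2 ^ 3 := by norm_num
      _ ≤ 2 ^ m := pow_le_pow_right₀ (by norm_num) (by omega)
  have hs1 : (2 : ℤ) ^ s ≤ 2 * 2 ^ m := by
    calc (2 : ℤ) ^ s ≤ 2 ^ (m + 1) := pow_le_pow_right₀ (by norm_num) (by omega)
      _ = 2 * 2 ^ m := by ring
  have hi1 : (2 : ℤ) ^ i ≤ 2 * 2 ^ m := by
    calc (2 : ℤ) ^ i ≤ 2 ^ (m + 1) := pow_le_pow_right₀ (by norm_num) (by omega)
      _ = 2 * 2 ^ m := by ring
  have hs0 : (1 : ℤ) ≤ 2 ^ s := one_le_pow₀ (by norm_num)
  have hi0 : (1 : ℤ) ≤ 2 ^ i := one_le_pow₀ (by norm_num)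
  rw [e1] at ht
  have ht1 : t < 2 := by
    by_contra hcon
    push Not at hcon
    nlinarith
  have ht2 : -2 < t := by
    by_contra hcon
    push Not at hcon
    nlinarith
  have h3 : t = -1 ∨ t = 0 ∨ t = 1 := by omega
  rcases h3 with rfl | rfl | rfl
  · -- 2 + 2^s + 2^n = 3 * 2^i
    by_cases him : i ≤ m
    · have : (2 : ℤ) ^ i ≤ 2 ^ m := pow_le_pow_right₀ (by norm_num) him
      linarith
    · have hieq : i = m + 1 := by omega
      subst hieq
      have e2 : (2 : ℤ) ^ (m + 1) = 2 * 2 ^ m := by ring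
      rw [e2] at ht
      by_cases hsm : s ≤ m
      · have : (2 : ℤ) ^ s ≤ 2 ^ m := pow_le_pow_right₀ (by norm_num) hsm
        linarith
      · have : s = m + 1 := by omega
        subst this
        rw [e2] at ht
        linarith
  · -- 3 + 2^s = 3 * 2^i
    rcases Nat.eq_zero_or_pos i with rfl | hipos
    · simp only [pow_zero] at ht
      linarith
    · obtain ⟨j, rfl⟩ : ∃ j, i = j + 1 := ⟨i - 1, by omega⟩
      have e3 : (2 : ℤ) ^ (j + 1) = 2 * 2 ^ j := by ring
      rcases Nat.eq_zero_or_pos s with rfl | hspos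
      · rw [e3] at ht
        simp only [pow_zero] at ht
        omega
      · obtain ⟨l, rfl⟩ : ∃ l, s = l + 1 := ⟨s - 1, by omega⟩
        have e4 : (2 : ℤ) ^ (l + 1) = 2 * 2 ^ l := by ring
        rw [e3, e4] at ht
        omega
  · linarith

/-- Every nonzero element is a sum of two values of `x ^ 3 + L x`. -/
theorem core [CharP F 2] (n : ℕ) (h5 : 5 ≤ n) (hp : (2 ^ n - 1).Prime)
    (hn : Fintype.card F = 2 ^ n) (L : F →+ F) (ν : F) (hν : ν ≠ 0) :
    ∃ x y : F, (x ^ 3 + L x) + (y ^ 3 + L y) = ν := by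
  have : Fact (Nat.Prime 2) := ⟨Nat.prime_two⟩
  have : ExpChar F 2 := ExpChar.prime Nat.prime_two
  have h2 : (2 : F) = 0 := by exact_mod_cast CharP.cast_eq_zero F 2
  have h32 : 2 ^ 5 ≤ 2 ^ n := Nat.pow_le_pow_right (by norm_num) h5
  by_contra hno
  push Not at hno
  -- `n` is odd
  obtain ⟨h, rfl⟩ : ∃ h, n = 2 * h + 1 := by
    have hpr := (Nat.prime_of_pow_sub_one_prime (by omega) hp).2
    rcases hpr.eq_two_or_odd with h | h
    · omega
    · exact ⟨n / 2, by omega⟩
  set n := 2 * h + 1 with hndef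
  obtain ⟨c, hc⟩ := linearized n hn L
  -- the trace condition
  have htr : ∀ a : F, a ^ 3 * T n ((ν + L a) * a ^ (2 ^ n - 4)) = 0 := by
    intro a
    by_cases ha : a = 0
    · subst ha; simp
    have hinv : a ^ 3 * a ^ (2 ^ n - 4) = 1 := by
      rw [← pow_add, show 3 + (2 ^ n - 4) = 2 ^ n - 1 by omega, ← hn]
      exact FiniteField.pow_card_sub_one_eq_one a ha
    set w := (ν + L a) * a ^ (2 ^ n - 4) with hw
    have hw3 : a ^ 3 * w = ν + L a := by
      rw [hw]; linear_combination (ν + L a) * hinv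
    rcases T_cases n hn (w + 1) with h0 | h1
    · exfalso
      obtain ⟨z, hz⟩ := half_trace h hn (w + 1)
      rw [show 2 * h + 1 = n from rfl, h0, zero_add] at hz
      apply hno (a * z) (a * z + a)
      rw [map_add]
      linear_combination a ^ 3 * hz + hw3
        + (a ^ 3 * z ^ 3 + a ^ 3 * z ^ 2 + a ^ 3 * z + a ^ 3 + L (a * z) + L a) * h2
    · rw [T_add, T_one] at h1
      have : T n w = 0 := by linear_combination h1
      rw [this, mul_zero]
  -- sum over all `a`
  have hsum : ∑ a : F, a ^ 3 * T n ((ν + L a) * a ^ (2 ^ n - 4)) = 0 :=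
    Finset.sum_eq_zero fun a _ => htr a
  have hexp : ∀ a : F, a ^ 3 * T n ((ν + L a) * a ^ (2 ^ n - 4))
      = ∑ i ∈ range n, (ν ^ (2 ^ i) * a ^ (3 + (2 ^ n - 4) * 2 ^ i)
        + ∑ k : Fin n, c k ^ (2 ^ i) * a ^ (3 + 2 ^ (k : ℕ) * 2 ^ i + (2 ^ n - 4) * 2 ^ i)) := by
    intro a
    unfold T
    rw [Finset.mul_sum]
    refine Finset.sum_congr rfl fun i _ => ?_
    rw [hc a, mul_pow, add_pow_char_pow, sum_pow_char_pow 2 i, add_mul, mul_add,
      Finset.sum_mul, Finset.mul_sum]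
    congr 1
    · rw [← pow_mul, pow_add]; ring
    · refine Finset.sum_congr rfl fun k _ => ?_
      rw [mul_pow, ← pow_mul, ← pow_mul, pow_add, pow_add]; ring
  have hq : Fintype.card F - 1 = 2 ^ n - 1 := by rw [hn]
  have htot : ∑ a : F, a ^ 3 * T n ((ν + L a) * a ^ (2 ^ n - 4)) = -ν := by
    simp_rw [hexp]
    rw [Finset.sum_comm]
    have hterm : ∀ i ∈ range n, ∑ a : F, (ν ^ (2 ^ i) * a ^ (3 + (2 ^ n - 4) * 2 ^ i)
        + ∑ k : Fin n, c k ^ (2 ^ i) * a ^ (3 + 2 ^ (k : ℕ) * 2 ^ i + (2 ^ n - 4) * 2 ^ i))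
        = if i = 0 then -ν else 0 := by
      intro i hi
      rw [Finset.mem_range] at hi
      rw [Finset.sum_add_distrib, ← Finset.mul_sum, Finset.sum_comm]
      have hz : ∑ k : Fin n, ∑ a : F,
          c k ^ (2 ^ i) * a ^ (3 + 2 ^ (k : ℕ) * 2 ^ i + (2 ^ n - 4) * 2 ^ i) = 0 := by
        refine Finset.sum_eq_zero fun k _ => ?_
        rw [← Finset.mul_sum, psum _ (by omega), hq, if_neg (nd2 n i k h5 hi k.2), mul_zero]
      rw [hz, add_zero, psum _ (by omega), hq]
      by_cases hi0 : i = 0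
      · subst hi0
        rw [if_pos rfl, if_pos ⟨1, by simp; omega⟩]
        simp
      · rw [if_neg hi0, if_neg (nd1 n i h5 hp (by omega) hi), mul_zero]
    rw [Finset.sum_congr rfl hterm, Finset.sum_ite_eq' (range n) 0 (fun _ => -ν)]
    rw [if_pos (Finset.mem_range.2 (by omega))]
  rw [htot] at hsum
  exact hν (neg_eq_zero.1 hsum)

/-- The cube map is APN in characteristic two. -/
theorem cube_apn [CharP F 2] : IsAPN (fun x : F => x ^ 3) := by
  intro a ha b
  have h2 : (2 : F) = 0 := by exact_mod_cast CharP.cast_eq_zero F 2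
  by_cases hne : ∃ x0 : F, (x0 + a) ^ 3 + x0 ^ 3 = b
  · obtain ⟨x0, hx0⟩ := hne
    have hsub : {x : F | (x + a) ^ 3 + x ^ 3 = b} ⊆ ({x0, x0 + a} : Set F) := by
      intro x hx
      simp only [Set.mem_ofPred_eq] at hx
      have h3 : a * ((x - x0) * (x - (x0 + a))) = 0 := by
        linear_combination hx - hx0 + (-x ^ 3 + x0 ^ 3 - a * x ^ 2 + a * x0 ^ 2
          - a * x * x0 + a * x0 ^ 2 - 2 * a ^ 2 * x + 2 * a ^ 2 * x0) * h2
      rcases mul_eq_zero.1 h3 with h | h
      · exact absurd h ha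
      · rcases mul_eq_zero.1 h with h | h
        · left; exact sub_eq_zero.1 h
        · right; exact sub_eq_zero.1 h
    calc {x : F | (x + a) ^ 3 + x ^ 3 = b}.ncard ≤ ({x0, x0 + a} : Set F).ncard :=
          Set.ncard_le_ncard hsub (Set.toFinite _)
      _ ≤ 2 := by
          have := Set.ncard_insert_le x0 ({x0 + a} : Set F)
          rwa [Set.ncard_singleton] at this
  · have : {x : F | (x + a) ^ 3 + x ^ 3 = b} = ∅ := by
      ext x
      simp only [Set.mem_ofPred_eq, Set.mem_empty_iff_false, iff_false]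
      exact fun hx => hne ⟨x, hx⟩
    rw [this]
    simp

/-- Counting differences: `k (k - 1) = lam (|G| - 1)` when `N` contains no nonzero element. -/
theorem count {G : Type} [AddCommGroup G] [Fintype G] (R : Set G) (N : AddSubgroup G) (lam : ℕ)
    (h : IsRDS R N lam) (hN : ∀ g : G, g ≠ 0 → g ∉ N) :
    R.ncard * R.ncard = R.ncard + lam * (Fintype.card G - 1) := by
  classical
  have hR : R.ncard = R.toFinset.card := Set.ncard_eq_toFinset_card' R
  set S := R.toFinset with hS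
  have hmem : ∀ g, g ∈ S ↔ g ∈ R := fun g => by simp [hS]
  have h1 : (S ×ˢ S).card = ∑ g : G, ((S ×ˢ S).filter (fun p => p.1 - p.2 = g)).card :=
    Finset.card_eq_sum_card_fiberwise (fun _ _ => Finset.mem_coe.2 (Finset.mem_univ _))
  rw [hR]
  rw [← Finset.card_product, h1, ← Finset.add_sum_erase _ _ (Finset.mem_univ (0 : G))]
  congr 1
  · -- diagonal
    have : (S ×ˢ S).filter (fun p => p.1 - p.2 = 0) = S.image (fun g => (g, g)) := by
      ext ⟨a, b⟩
      simp only [Finset.mem_filter, Finset.mem_product, Finset.mem_image, Prod.mk.injEq,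
        sub_eq_zero]
      constructor
      · rintro ⟨⟨ha, _⟩, rfl⟩
        exact ⟨a, ha, rfl, rfl⟩
      · rintro ⟨g, hg, rfl, rfl⟩
        exact ⟨⟨hg, hg⟩, rfl⟩
    rw [this, Finset.card_image_of_injective _ (fun a b hab => (Prod.mk.inj hab).1)]
  · rw [Finset.sum_congr rfl (g := fun _ => lam), Finset.sum_const,
      Finset.card_erase_of_mem (Finset.mem_univ _), Finset.card_univ, smul_eq_mul, mul_comm]
    intro g hg
    have hg0 : g ≠ 0 := Finset.ne_of_mem_erase hg
    rw [← h.1 g (hN g hg0), ← Set.ncard_coe_finset]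
    congr 1
    ext ⟨a, b⟩
    simp only [Finset.coe_filter, Finset.mem_product, hmem, Set.mem_ofPred_eq]
    constructor
    · rintro ⟨⟨ha, hb⟩, hab⟩
      refine ⟨ha, hb, ?_, hab⟩
      rintro rfl
      exact hg0 (by rw [← hab, sub_self])
    · rintro ⟨ha, hb, _, hab⟩
      exact ⟨⟨ha, hb⟩, hab⟩

theorem main (n : ℕ) (h5 : 5 ≤ n) (hp : (2 ^ n - 1).Prime)
    (hn : Fintype.card F = 2 ^ n) :
    IsAPN (fun x : F => x ^ 3) ∧
      ∀ g : F → F, EAEquiv (fun x : F => x ^ 3) g → ¬ GivesRDS g := by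
  have : Fact (Nat.Prime 2) := ⟨Nat.prime_two⟩
  have : CharP F 2 := charP_of_card_eq_prime_pow hn
  refine ⟨cube_apn, ?_⟩
  rintro g ⟨A, B, a, b, C, c, hg⟩ ⟨N, lam, hR, hk2, hk⟩
  have h2 : (2 : F) = 0 := by exact_mod_cast CharP.cast_eq_zero F 2
  -- every nonzero element is a difference of two elements of the image
  let L : F →+ F := (A.symm.toAddMonoidHom).comp (C.comp B.symm.toAddMonoidHom)
  have hdiff : ∀ ν : F, ν ≠ 0 → ∃ x y : F, g x - g y = ν := by
    intro ν hν
    have hν' : A.symm ν ≠ 0 := by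
      intro h
      apply hν
      have := congrArg A h
      simpa using this
    obtain ⟨z, w, hzw⟩ := core n h5 hp hn L (A.symm ν) hν'
    refine ⟨B.symm (z - b), B.symm (w - b), ?_⟩
    rw [hg, hg]
    have e1 : ∀ z : F, A (L z) = C (B.symm z) := by
      intro z
      simp [L]
    have e2 : ∀ z : F, B (B.symm (z - b)) + b = z := by intro z; simp
    have e3 : A (z ^ 3 + L z) + A (w ^ 3 + L w) = ν := by
      rw [← map_add, hzw]; simp
    rw [e2, e2]
    simp only [map_add, map_sub] at e3 ⊢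
    rw [e1, e1] at e3
    have e4 : ∀ u : F, -u = u := by
      intro u; linear_combination -u * h2
    linear_combination e3 - (A (w ^ 3) + C (B.symm w)) * h2
  have hN : ∀ v : F, v ≠ 0 → v ∉ N := by
    intro v hv hvN
    obtain ⟨x, y, hxy⟩ := hdiff v hv
    refine hR.2 (g x) ⟨x, rfl⟩ (g y) ⟨y, rfl⟩ ?_ (by rw [hxy]; exact hvN)
    intro h
    exact hv (by rw [← hxy, h, sub_self])
  have hcount := count (Set.range g) N lam hR hN
  rw [Nat.card_eq_fintype_card, hn] at hk
  rw [hn] at hcount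
  obtain ⟨k, hkk⟩ : ∃ k, (Set.range g).ncard = k + 2 := ⟨(Set.range g).ncard - 2, by omega⟩
  rw [hkk] at hcount hk
  have hdvd : 2 ^ n - 1 ∣ (k + 2) * (k + 1) := by
    refine ⟨lam, ?_⟩
    have : (k + 2) * (k + 2) = (k + 2) * (k + 1) + (k + 2) := by ring
    rw [this] at hcount
    have h3 : (k + 2) * (k + 1) = lam * (2 ^ n - 1) := by omega
    rw [h3, mul_comm]
  rcases (Nat.Prime.dvd_mul hp).1 hdvd with h | h
  · have := Nat.le_of_dvd (by omega) h
    omega
  · have := Nat.le_of_dvd (by omega) h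
    omega

end auxiliary

/-- If `2 ^ n - 1` is a prime number and `n ≥ 5`, then the APN map `x ↦ x ^ 3` on a field with
`2 ^ n` elements is not EA-equivalent to any map giving rise to a relative difference set. Hence
the assertion of Q1 is false (already for `n = 5`). -/
theorem result :
    (∀ n : ℕ, 5 ≤ n → (2 ^ n - 1).Prime → ∀ (F : Type) [Field F] [Finite F],
      Nat.card F = 2 ^ n → IsAPN (fun x : F => x ^ 3) ∧
        ∀ g : F → F, EAEquiv (fun x : F => x ^ 3) g → ¬ GivesRDS g) ∧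
    ¬ (∀ n : ℕ, 5 ≤ n → ∀ (F : Type) [Field F] [Finite F], Nat.card F = 2 ^ n →
      ∀ f : F → F, IsAPN f → ∃ g : F → F, EAEquiv f g ∧ IsAPN g ∧ GivesRDS g) := by
  have h1 : ∀ n : ℕ, 5 ≤ n → (2 ^ n - 1).Prime → ∀ (F : Type) [Field F] [Finite F],
      Nat.card F = 2 ^ n → IsAPN (fun x : F => x ^ 3) ∧
        ∀ g : F → F, EAEquiv (fun x : F => x ^ 3) g → ¬ GivesRDS g := by
    intro n h5 hp F _ _ hn
    have := Fintype.ofFinite F
    rw [Nat.card_eq_fintype_card] at hn
    exact main n h5 hp hn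
  refine ⟨h1, fun h => ?_⟩
  have : Fact (Nat.Prime 2) := ⟨Nat.prime_two⟩
  have hcard : Nat.card (GaloisField 2 5) = 2 ^ 5 := GaloisField.card 2 5 (by norm_num)
  obtain ⟨hapn, hno⟩ := h1 5 le_rfl (by norm_num) (GaloisField 2 5) hcard
  obtain ⟨g, hEA, _, hR⟩ := h 5 le_rfl (GaloisField 2 5) hcard _ hapn
  exact hno g hEA hR

end Pool.Agent.Results.MP_abc6c1_co.GoldEA
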